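import Pool.Agent.Helper27.EB.BallIso
import Pool.Agent.Helper33.NI.Defs

/-!
# Project NI: the allowed balls give the rules
-/

set_option autoImplicit false

namespace NI

open EB

theorem adj_add {d : ℕ} (g : Gd d) (i : Fin d) : (grid d).Adj g (g + un i) := by
  rw [adj_grid]
  refine ⟨fun e => ?_, Or.inl ⟨i, rfl⟩⟩
  have h1 : un i = (0 : Gd d) := by
    have h2 : g + un i = g + 0 := by rw [← e, add_zero]
    exact add_left_cancel h2
  have h3 := congrFun h1 i
  simp [un] at h3

theorem mem_ball1 {d : ℕ} (i : Fin d) : un i ∈ ball (grid d) 2 (0 : Gd d) := by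
  have h := adj_add (0 : Gd d) i
  rw [zero_add] at h
  exact ⟨SimpleGraph.Walk.cons h SimpleGraph.Walk.nil, by simp⟩

theorem mem_ball2 {d : ℕ} (i j : Fin d) : un i + un j ∈ ball (grid d) 2 (0 : Gd d) := by
  have h := adj_add (0 : Gd d) i
  rw [zero_add] at h
  exact ⟨SimpleGraph.Walk.cons h (SimpleGraph.Walk.cons (adj_add (un i) j) SimpleGraph.Walk.nil),
    by simp⟩

theorem un_ne {d : ℕ} {i j : Fin d} (h : i ≠ j) : (un i : Gd d) ≠ un j := by
  intro e
  have := congrFun e i
  simp [un, h] at this

theorem conf_of_allowed {d : ℕ} (y : Gd d → Lab)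
    (h : ∀ g, Allowed d lcl fun b => y (b.1 + g)) : Conf y := by
  constructor
  · intro g i
    have h1 := (h g).1 ⟨un i, mem_ball1 i⟩
      (by
        have := adj_add (0 : Gd d) i
        rw [zero_add] at this
        exact this)
    have e1 : y (g + un i) = y (un i + g) := by rw [add_comm]
    rw [e1]
    intro e2
    refine h1 ?_ ∘ fun e3 => ?_
    · change (y (0 + g)).1 = (y (un i + g)).1
      rw [zero_add]
      exact e2
    · change (y (0 + g)).2 = (y (un i + g)).2
      rw [zero_add]
      exact e3
  · intro g i j hij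
    have a1 := adj_add (0 : Gd d) i
    have a4 := adj_add (0 : Gd d) j
    rw [zero_add] at a1 a4
    have a2 := adj_add (un i : Gd d) j
    have a3 := adj_add (un j : Gd d) i
    rw [add_comm (un j) (un i)] at a3
    have h1 := (h g).2 ⟨un i, mem_ball1 i⟩ ⟨un i + un j, mem_ball2 i j⟩ ⟨un j, mem_ball1 j⟩
      a1 a2 a3.symm a4.symm
      (fun e => un_ne hij (congrArg Subtype.val e))
      (fun e => by
        have e1 : un i + un j = (0 : Gd d) := congrArg Subtype.val e
        have e2 := congrFun e1 i
        simp [un, hij] at e2)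
    change Quad (y (0 + g)).1 (y (un i + g)).1 (y (un i + un j + g)).1 (y (un j + g)).1 at h1
    rw [zero_add, add_comm (un i), add_comm (un i + un j), add_comm (un j), ← add_assoc] at h1
    exact h1

end NI
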