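import Pool.Agent.Helper24.NI.Plane
import Pool.Agent.Helper33.NI.Defs

/-!
# Project NI: no recurrent configuration on the grid
-/

set_option autoImplicit false

namespace NI

open EB

theorem quad_iff_face : ∀ a b c e : ZMod 3, Quad a b c e ↔ NIC.Face a b c e := by
  unfold Quad
  decide

/-- The rules have no solution on the grid in which a label recurs with bounded gaps in every row and every column of
the plane spanned by two unit vectors and in which every finite piece of a row recurs at an odd distance. -/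
theorem no_conf' {d : ℕ} {i0 i1 : Fin d} (h01 : i0 ≠ i1) (y : Gd d → Lab) (h : Conf y) {s : ZMod 3}
    {N : ℕ}
    (h1 : ∀ g, (∃ t : ℤ, |t| ≤ N ∧ (y (g + t • un i0)).1 = s) ∧
      ∃ t : ℤ, |t| ≤ N ∧ (y (g + t • un i1)).1 = s)
    (h2 : ∀ (g : Gd d) (R : ℕ), ∃ n : ℤ, Odd n ∧ ∀ i : ℕ, i ≤ R →
      y (g + (n + i) • un i0) = y (g + (i : ℤ) • un i0)) : False := by
  let P : ℤ → ℤ → Gd d := fun u v => u • un i0 + v • un i1
  have px : ∀ u v, P (u + 1) v = P u v + un i0 := fun u v => by
    simp only [P, add_smul, one_smul]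
    abel
  have py : ∀ u v, P u (v + 1) = P u v + un i1 := fun u v => by
    simp only [P, add_smul, one_smul]
    abel
  have hP : NIC.PConf (fun u v => (y (P u v)).1) fun u v => (y (P u v)).2 := by
    refine ⟨fun u v => ?_, fun u v e => ?_, fun u v e => ?_⟩
    · have := h.quad (P u v) i0 i1 h01
      rw [quad_iff_face, ← px, ← py, ← py] at this
      exact this
    · have := h.edge (P u v) i0
      rw [← px] at this
      exact (this e.symm).symm
    · have := h.edge (P u v) i1
      rw [← py] at this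
      exact (this e.symm).symm
  refine NIC.no_plane hP (a := s) (N := N) (fun u v => ⟨?_, ?_⟩) fun u v R => ?_
  · obtain ⟨t, ht, e⟩ := (h1 (P u v)).1
    refine ⟨t, ht, ?_⟩
    rw [← e]
    congr 2
    simp only [P, add_smul]
    abel
  · obtain ⟨t, ht, e⟩ := (h1 (P u v)).2
    refine ⟨t, ht, ?_⟩
    rw [← e]
    congr 2
    simp only [P, add_smul]
    abel
  · obtain ⟨n, hn, hr⟩ := h2 (P u v) R
    refine ⟨n, hn, fun i hi => ?_⟩
    have e := hr i hi
    have e1 : P (u + n + i) v = P u v + (n + i : ℤ) • un i0 := by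
      simp only [P, add_smul]
      abel
    have e2 : P (u + i) v = P u v + (i : ℤ) • un i0 := by
      simp only [P, add_smul]
      abel
    rw [e1, e2, e]
    exact ⟨rfl, rfl⟩

theorem no_conf {d : ℕ} (hd : 2 ≤ d) (y : Gd d → Lab) (h : Conf y) (hT : Toep y) (hS : Synd y) :
    False := by
  obtain ⟨s, N, hN⟩ := hS
  have h01 : (⟨0, by omega⟩ : Fin d) ≠ ⟨1, by omega⟩ := by
    intro e
    have := congrArg Fin.val e
    simp at this
  refine no_conf' h01 y h (s := s.1) (N := N) (fun g => ⟨?_, ?_⟩) fun g R => ?_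
  · obtain ⟨t, ht, e⟩ := hN g ⟨0, by omega⟩
    exact ⟨t, by rw [Nat.abs_cast]; exact_mod_cast ht.le, by rw [e]⟩
  · obtain ⟨t, ht, e⟩ := hN g ⟨1, by omega⟩
    exact ⟨t, by rw [Nat.abs_cast]; exact_mod_cast ht.le, by rw [e]⟩
  · choose ee he using hT
    obtain ⟨E, hE⟩ : ∃ E : ℕ, ∀ i : ℕ, i ≤ R → ee (g + (i : ℤ) • un ⟨0, by omega⟩) ≤ E := by
      refine ⟨(Finset.range (R + 1)).sup fun i => ee (g + (i : ℤ) • un ⟨0, by omega⟩), fun i hi => ?_⟩
      exact Finset.le_sup (f := fun i : ℕ => ee (g + (i : ℤ) • un ⟨0, by omega⟩))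
        (Finset.mem_range.2 (by omega))
    refine ⟨3 ^ E, Odd.pow (by decide), fun i hi => ?_⟩
    have h3 := he (g + (i : ℤ) • un ⟨0, by omega⟩)
      ((3 ^ (E - ee (g + (i : ℤ) • un ⟨0, by omega⟩)) : ℤ) • un ⟨0, by omega⟩)
    rw [smul_smul, ← pow_add, Nat.add_sub_cancel' (hE i hi)] at h3
    rw [← h3]
    congr 1
    rw [add_smul]
    abel

end NI
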