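import Mathlib

/-!
# Project NI: the face rule and the integer lift of a plane configuration
-/

set_option autoImplicit false

namespace NIC

/-- The labels in cyclic order around a unit square: all equal, or two adjacent ones `i` and the other two `i + 1`,
or one `i` and three `i + 1`. -/
def Face (a b c d : ZMod 3) : Prop :=
  ∃ i, (a = i ∧ b = i ∧ c = i ∧ d = i) ∨
    (a = i ∧ b = i ∧ c = i + 1 ∧ d = i + 1) ∨
    (a = i + 1 ∧ b = i ∧ c = i ∧ d = i + 1) ∨
    (a = i + 1 ∧ b = i + 1 ∧ c = i ∧ d = i) ∨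
    (a = i ∧ b = i + 1 ∧ c = i + 1 ∧ d = i) ∨
    (a = i ∧ b = i + 1 ∧ c = i + 1 ∧ d = i + 1) ∨
    (a = i + 1 ∧ b = i ∧ c = i + 1 ∧ d = i + 1) ∨
    (a = i + 1 ∧ b = i + 1 ∧ c = i ∧ d = i + 1) ∨
    (a = i + 1 ∧ b = i + 1 ∧ c = i + 1 ∧ d = i)

instance (a b c d : ZMod 3) : Decidable (Face a b c d) := by
  unfold Face
  infer_instance

theorem Face.rot {a b c d : ZMod 3} (h : Face a b c d) : Face b c d a := by
  revert a b c d
  decide

theorem Face.flip {a b c d : ZMod 3} (h : Face a b c d) : Face a d c b := by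
  revert a b c d
  decide

/-- the representative in `{-1, 0, 1}` -/
def dl (a : ZMod 3) : ℤ := if a = 0 then 0 else if a = 1 then 1 else -1

theorem dl_cast (a : ZMod 3) : ((dl a : ℤ) : ZMod 3) = a := by
  revert a
  decide

theorem dl_neg (a : ZMod 3) : dl (-a) = -dl a := by
  revert a
  decide

theorem dl_le (a : ZMod 3) : dl a ≤ 1 := by
  revert a
  decide

theorem neg_le_dl (a : ZMod 3) : -1 ≤ dl a := by
  revert a
  decide

theorem Face.sum {a b c d : ZMod 3} (h : Face a b c d) :
    dl (b - a) + dl (c - b) = dl (d - a) + dl (c - d) := by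
  revert a b c d
  decide

theorem Face.three {a b c d : ZMod 3} (h : Face a b c d) :
    dl (b - a) + dl (c - b) ≤ max 0 (max (dl (b - a)) (dl (d - a))) := by
  revert a b c d
  decide

theorem Face.diag {a b c d : ZMod 3} (h : Face a b c d) :
    dl (b - a) ≤ max 0 (dl (b - a) + dl (c - b)) := by
  revert a b c d
  decide

/-- a discrete primitive on `Z` -/
theorem exists_prim (c : ℤ) (g : ℤ → ℤ) : ∃ G : ℤ → ℤ, G 0 = c ∧ ∀ n, G (n + 1) = G n + g n := by
  let T : Equiv.Perm (ℤ × ℤ) :=
    { toFun := fun p => (p.1 + 1, p.2 + g p.1)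
      invFun := fun p => (p.1 - 1, p.2 - g (p.1 - 1))
      left_inv := fun p => by simp
      right_inv := fun p => by simp }
  have h1 : ∀ n : ℤ, ((T ^ n) (0, c)).1 = n := by
    intro n
    induction n using Int.induction_on with
    | zero => simp
    | succ n ih =>
      rw [add_comm, zpow_one_add, Equiv.Perm.mul_apply]
      change ((T ^ (n : ℤ)) (0, c)).1 + 1 = _
      rw [ih, add_comm]
    | pred n ih =>
      rw [sub_eq_neg_add, zpow_add, zpow_neg_one, Equiv.Perm.mul_apply]
      change ((T ^ (-(n : ℤ))) (0, c)).1 - 1 = _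
      rw [ih]
      ring
  refine ⟨fun n => ((T ^ n) (0, c)).2, by simp, fun n => ?_⟩
  change ((T ^ (n + 1)) (0, c)).2 = _
  rw [add_comm n 1, zpow_one_add, Equiv.Perm.mul_apply]
  change ((T ^ n) (0, c)).2 + g ((T ^ n) (0, c)).1 = _
  rw [h1]

/-- the integer lift -/
theorem exists_lift (l : ℤ → ℤ → ZMod 3)
    (hF : ∀ x y, Face (l x y) (l (x + 1) y) (l (x + 1) (y + 1)) (l x (y + 1))) :
    ∃ H : ℤ → ℤ → ℤ, (∀ x y, ((H x y : ℤ) : ZMod 3) = l x y) ∧
      (∀ x y, H (x + 1) y = H x y + dl (l (x + 1) y - l x y)) ∧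
      ∀ x y, H x (y + 1) = H x y + dl (l x (y + 1) - l x y) := by
  obtain ⟨A, hA0, hA⟩ := exists_prim (dl (l 0 0)) fun x => dl (l (x + 1) 0 - l x 0)
  choose B hB0 hB using fun x => exists_prim (A x) fun y => dl (l x (y + 1) - l x y)
  have h1 : ∀ x y, B (x + 1) y = B x y + dl (l (x + 1) y - l x y) := by
    intro x y
    induction y using Int.induction_on with
    | zero => rw [hB0, hB0, hA]
    | succ n ih =>
      rw [hB, hB, ih]
      have := (hF x n).sum
      linarith
    | pred n ih =>
      have e1 := hB (x + 1) (-(n : ℤ) - 1)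
      have e2 := hB x (-(n : ℤ) - 1)
      have := (hF x (-(n : ℤ) - 1)).sum
      simp only [sub_add_cancel] at e1 e2 this
      linarith
  refine ⟨B, ?_, h1, hB⟩
  intro x y
  have hx : ∀ x : ℤ, ((A x : ℤ) : ZMod 3) = l x 0 := by
    intro x
    induction x using Int.induction_on with
    | zero => rw [hA0, dl_cast]
    | succ n ih =>
      rw [hA, Int.cast_add, ih, dl_cast]
      ring
    | pred n ih =>
      have e1 := hA (-(n : ℤ) - 1)
      simp only [sub_add_cancel] at e1
      rw [e1, Int.cast_add, dl_cast] at ih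
      linear_combination ih
  induction y using Int.induction_on with
  | zero => rw [hB0, hx]
  | succ n ih =>
    rw [hB, Int.cast_add, ih, dl_cast]
    ring
  | pred n ih =>
    have e1 := hB x (-(n : ℤ) - 1)
    simp only [sub_add_cancel] at e1
    rw [e1, Int.cast_add, dl_cast] at ih
    linear_combination ih

end NIC
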