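import Pool.Agent.Helper24.NI.Box

/-!
# Project NI: the lift is bounded, all boxes are small
-/

set_option autoImplicit false

namespace NIC

/-- An integer valued function on the plane whose sublevel sets are unions of boxes, and such that every
row and every column meets the level set mod 3 of `a` in every window of radius `N`. -/
structure Hc (H : ℤ → ℤ → ℤ) (a : ZMod 3) (N : ℕ) : Prop where
  lipx : ∀ x y s, Sg s → H (x + s) y ≤ H x y + 1
  lipy : ∀ x y s, Sg s → H x (y + s) ≤ H x y + 1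
  sq : ∀ m, Sq fun x y => H x y ≤ m
  rx : ∀ x y, ∃ t : ℤ, |t| ≤ N ∧ ((H (x + t) y : ℤ) : ZMod 3) = a
  ry : ∀ x y, ∃ t : ℤ, |t| ≤ N ∧ ((H x (y + t) : ℤ) : ZMod 3) = a

variable {H : ℤ → ℤ → ℤ} {a : ZMod 3} {N : ℕ}

theorem Hc.swap (h : Hc H a N) : Hc (fun x y => H y x) a N where
  lipx x y s hs := h.lipy y x s hs
  lipy x y s hs := h.lipx y x s hs
  sq m := (h.sq m).swap
  rx x y := h.ry y x
  ry x y := h.rx y x

theorem exists_sg (k : ℤ) : ∃ t, Sg t ∧ k = t * (k.natAbs : ℤ) := by
  rcases le_total 0 k with h | h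
  · exact ⟨1, Or.inl rfl, by omega⟩
  · exact ⟨-1, Or.inr rfl, by omega⟩

/-- a wall which is longer than `2 N` is impossible -/
theorem Hc.run (h : Hc H a N) {m x y s : ℤ} (hs : Sg s)
    (hy : ∀ t, Sg t → ∀ j : ℕ, j ≤ N → H x (y + t * j) ≤ m) (i : ℕ) : H (x + s * i) y ≤ m := by
  have h0 : H x y ≤ m := by simpa using hy 1 (Or.inl rfl) 0 (Nat.zero_le _)
  rcases run_or (fun i : ℕ => H (x + s * i) y ≤ m) (by simpa using h0) with h1 | ⟨p, hp, hn⟩
  · exact h1 i
  · exfalso
    have hn' : ¬ H (x + s * (p + 1)) y ≤ m := by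
      simpa using hn
    have key : ∀ k : ℤ, |k| ≤ N → H (x + s * p) (y + k) = m ∧ H (x + s * (p + 1)) (y + k) = m + 1 := by
      intro k hk
      obtain ⟨t, ht, hkt⟩ := exists_sg k
      have hj : k.natAbs ≤ N := by
        rw [Int.abs_eq_natAbs] at hk
        exact_mod_cast hk
      have a1 := (h.sq m).box hs ht hp (fun j hj => hy t ht j hj) k.natAbs hj p le_rfl
      have a2 := (h.sq m).wall hs ht hp (fun j hj => hy t ht j hj) hn' k.natAbs hj
      rw [← hkt] at a1 a2
      have a3 := h.lipx (x + s * p) (y + k) s hs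
      rw [show x + s * (p : ℤ) + s = x + s * (p + 1) by ring] at a3
      omega
    obtain ⟨t1, ht1, e1⟩ := h.ry (x + s * p) y
    obtain ⟨t2, ht2, e2⟩ := h.ry (x + s * (p + 1)) y
    rw [(key t1 ht1).1] at e1
    rw [(key t2 ht2).2] at e2
    rw [← e1] at e2
    push_cast at e2
    have e3 : (1 : ZMod 3) = 0 := by linear_combination e2
    exact absurd e3 (by decide)

theorem Hc.ball (h : Hc H a N) (x y s : ℤ) (hs : Sg s) (j : ℕ) :
    H (x + s * j) y ≤ H x y + j ∧ H x (y + s * j) ≤ H x y + j := by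
  induction j with
  | zero => simp
  | succ j ih =>
    have h1 := h.lipx (x + s * j) y s hs
    have h2 := h.lipy x (y + s * j) s hs
    rw [show x + s * (j : ℤ) + s = x + s * ((j + 1 : ℕ) : ℤ) by push_cast; ring] at h1
    rw [show y + s * (j : ℤ) + s = y + s * ((j + 1 : ℕ) : ℤ) by push_cast; ring] at h2
    push_cast at h1 h2 ⊢
    constructor <;> omega

/-- the lift is bounded -/
theorem Hc.bound (h : Hc H a N) (x y u v : ℤ) : H u v ≤ H x y + N := by
  have hx : ∀ s, Sg s → ∀ j : ℕ, j ≤ N → H (x + s * j) y ≤ H x y + N := fun s hs j hj => by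
    have := (h.ball x y s hs j).1
    omega
  have hy : ∀ s, Sg s → ∀ j : ℕ, j ≤ N → H x (y + s * j) ≤ H x y + N := fun s hs j hj => by
    have := (h.ball x y s hs j).2
    omega
  exact (h.sq (H x y + N)).all (x := x) (y := y) (fun s hs i => h.run hs hy i)
    (fun t ht j => h.swap.run (x := y) (y := x) ht hx j) u v

/-- all boxes are small -/
theorem Hc.small (h : Hc H a N) {m : ℤ} (hV : ∃ u v, ¬ H u v ≤ m) {x y : ℤ} (hxy : H x y ≤ m)
    {s : ℤ} (hs : Sg s) :
    ∃ p : ℕ, p ≤ 2 * N ∧ (∀ i : ℕ, i ≤ p → H (x + s * i) y ≤ m) ∧ ¬ H (x + s * (p + 1)) y ≤ m := by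
  by_contra hc
  have hrow : ∀ i : ℕ, i ≤ 2 * N → H (x + s * i) y ≤ m := by
    intro i hi
    rcases run_or (fun i : ℕ => H (x + s * i) y ≤ m) (by simpa using hxy) with h1 | ⟨p, hp, hn⟩
    · exact h1 i
    · have hn' : ¬ H (x + s * (p + 1)) y ≤ m := by
        simpa using hn
      by_contra hi'
      refine hc ⟨p, ?_, hp, hn'⟩
      by_contra hpN
      exact hi' (hp i (by omega))
  -- the column runs through the middle cell do not end
  have hx' : ∀ s', Sg s' → ∀ i : ℕ, i ≤ N → H (x + s * N + s' * i) y ≤ m := by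
    intro s' hs' i hi
    have e : s' = s ∨ s' = -s := by
      rcases hs with hs | hs <;> rcases hs' with hs' | hs' <;> subst hs <;> subst hs' <;> simp
    rcases e with e | e
    · subst e
      have := hrow (N + i) (by omega)
      rwa [show x + s' * ((N + i : ℕ) : ℤ) = x + s' * N + s' * i by push_cast; ring] at this
    · subst e
      have := hrow (N - i) (by omega)
      rwa [show x + s * ((N - i : ℕ) : ℤ) = x + s * N + -s * i by push_cast [hi]; ring] at this
  have hcol : ∀ t, Sg t → ∀ j : ℕ, H (x + s * N) (y + t * j) ≤ m := fun t ht j =>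
    h.swap.run (x := y) (y := x + s * N) ht hx' j
  have hrow' : ∀ s', Sg s' → ∀ i : ℕ, H (x + s * N + s' * i) y ≤ m := fun s' hs' i =>
    h.run hs' (fun t ht j _ => hcol t ht j) i
  obtain ⟨u, v, huv⟩ := hV
  exact huv ((h.sq m).all (x := x + s * N) (y := y) hrow' hcol u v)

end NIC
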