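import Pool.Agent.Helper24.NI.Base

/-!
# Project NI: sets of cells which meet a unit square in 0, 1, 2 adjacent or 4 cells
-/

set_option autoImplicit false

namespace NIC

/-- a sign -/
def Sg (s : ℤ) : Prop := s = 1 ∨ s = -1

theorem Sg.neg {s : ℤ} (h : Sg s) : Sg (-s) := by
  rcases h with h | h <;> subst h <;> simp [Sg]

/-- never exactly three cells of a unit square and never exactly the two cells of a diagonal -/
structure Sq (A : ℤ → ℤ → Prop) : Prop where
  three : ∀ x y s t, Sg s → Sg t → A x y → A (x + s) y → A x (y + t) → A (x + s) (y + t)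
  diag : ∀ x y s t, Sg s → Sg t → A x y → A (x + s) (y + t) → A (x + s) y

variable {A : ℤ → ℤ → Prop}

theorem Sq.diag' (hA : Sq A) {x y s t : ℤ} (hs : Sg s) (ht : Sg t) (h1 : A x y)
    (h2 : A (x + s) (y + t)) : A x (y + t) := by
  have h := hA.diag (x + s) (y + t) (-s) (-t) hs.neg ht.neg h2 (by simpa using h1)
  simpa using h

theorem Sq.swap (hA : Sq A) : Sq fun x y => A y x where
  three x y s t hs ht h1 h2 h3 := hA.three y x t s ht hs h1 h3 h2
  diag x y s t hs ht h1 h2 := hA.diag' (x := y) (y := x) ht hs h1 h2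

/-- a rectangle -/
theorem Sq.box (hA : Sq A) {x y s t : ℤ} (hs : Sg s) (ht : Sg t) {p q : ℕ}
    (hx : ∀ i : ℕ, i ≤ p → A (x + s * i) y) (hy : ∀ j : ℕ, j ≤ q → A x (y + t * j)) :
    ∀ j : ℕ, j ≤ q → ∀ i : ℕ, i ≤ p → A (x + s * i) (y + t * j) := by
  intro j
  induction j with
  | zero =>
    intro _ i hi
    simpa using hx i hi
  | succ j ihj =>
    intro hj i
    induction i with
    | zero =>
      intro _
      simpa using hy (j + 1) hj
    | succ i ihi =>
      intro hi
      have h1 := ihj (by omega) i (by omega)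
      have h2 := ihj (by omega) (i + 1) hi
      have h3 := ihi (by omega)
      have e1 : x + s * ((i + 1 : ℕ) : ℤ) = x + s * i + s := by
        push_cast
        ring
      have e2 : y + t * ((j + 1 : ℕ) : ℤ) = y + t * j + t := by
        push_cast
        ring
      rw [e1] at h2 ⊢
      rw [e2] at h3 ⊢
      exact hA.three _ _ s t hs ht h1 h2 h3

/-- beyond the end of a horizontal run -/
theorem Sq.wall (hA : Sq A) {x y s t : ℤ} (hs : Sg s) (ht : Sg t) {p q : ℕ}
    (hx : ∀ i : ℕ, i ≤ p → A (x + s * i) y) (hy : ∀ j : ℕ, j ≤ q → A x (y + t * j))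
    (hn : ¬ A (x + s * (p + 1)) y) :
    ∀ j : ℕ, j ≤ q → ¬ A (x + s * (p + 1)) (y + t * j) := by
  intro j
  induction j with
  | zero =>
    intro _
    simpa using hn
  | succ j ih =>
    intro hj hc
    refine ih (by omega) ?_
    have h1 := hA.box hs ht hx hy j (by omega) p le_rfl
    have h2 := hA.box hs ht hx hy (j + 1) hj p le_rfl
    have e1 : x + s * ((p : ℤ) + 1) = x + s * p + s := by ring
    have e2 : y + t * ((j + 1 : ℕ) : ℤ) = y + t * j + t := by
      push_cast
      ring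
    rw [e1] at hc ⊢
    rw [e2] at hc h2
    have h := hA.three (x + s * p) (y + t * j + t) s (-t) hs ht.neg h2 hc (by simpa using h1)
    simpa using h

/-- beyond the end of a vertical run -/
theorem Sq.wall' (hA : Sq A) {x y s t : ℤ} (hs : Sg s) (ht : Sg t) {p q : ℕ}
    (hx : ∀ i : ℕ, i ≤ p → A (x + s * i) y) (hy : ∀ j : ℕ, j ≤ q → A x (y + t * j))
    (hn : ¬ A x (y + t * (q + 1))) :
    ∀ i : ℕ, i ≤ p → ¬ A (x + s * i) (y + t * (q + 1)) :=
  hA.swap.wall (x := y) (y := x) ht hs hy hx hn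

/-- a run ends or not -/
theorem run_or (B : ℕ → Prop) (h0 : B 0) :
    (∀ i, B i) ∨ ∃ p, (∀ i, i ≤ p → B i) ∧ ¬ B (p + 1) := by
  classical
  by_cases h : ∀ i, B i
  · exact Or.inl h
  · right
    push Not at h
    have hp := Nat.find_spec h
    have hm : Nat.find h ≠ 0 := fun e => hp (by rw [e]; exact h0)
    refine ⟨Nat.find h - 1, fun i hi => ?_, ?_⟩
    · by_contra hc
      exact Nat.find_min h (by omega) hc
    · have e : Nat.find h - 1 + 1 = Nat.find h := by omega
      rwa [e]

/-- four infinite runs -/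
theorem Sq.all (hA : Sq A) {x y : ℤ} (hx : ∀ s, Sg s → ∀ i : ℕ, A (x + s * i) y)
    (hy : ∀ t, Sg t → ∀ j : ℕ, A x (y + t * j)) (u v : ℤ) : A u v := by
  have key : ∀ a b : ℤ, ∃ s, Sg s ∧ ∃ n : ℕ, b = a + s * n := by
    intro a b
    rcases le_total a b with h | h
    · refine ⟨1, Or.inl rfl, (b - a).toNat, ?_⟩
      rw [Int.toNat_of_nonneg (by omega)]
      ring
    · refine ⟨-1, Or.inr rfl, (a - b).toNat, ?_⟩
      rw [Int.toNat_of_nonneg (by omega)]
      ring
  obtain ⟨s, hs, p, rfl⟩ := key x u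
  obtain ⟨t, ht, q, rfl⟩ := key y v
  exact hA.box hs ht (fun i _ => hx s hs i) (fun j _ => hy t ht j) q le_rfl p le_rfl

end NIC
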