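import Mathlib

/-!
# Project NI: free minimal rotations of the circle
-/

set_option autoImplicit false

namespace NIC

open Polynomial

/-- the circle -/
abbrev K : Type := AddCircle (1 : ℝ)

/-- A Liouville number -/
noncomputable def xi : ℝ := liouvilleNumber ((2 : ℕ) : ℝ)

theorem xi_trans : Transcendental ℤ xi := transcendental_liouvilleNumber le_rfl

/-- the rotation -/
noncomputable def phi (d : ℕ) : (Fin d → ℤ) →+ K where
  toFun v := ∑ j, v j • ((xi ^ ((j : ℕ) + 1) : ℝ) : K)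
  map_zero' := by simp
  map_add' v w := by
    simp only [Pi.add_apply, add_smul, Finset.sum_add_distrib]

theorem phi_inj (d : ℕ) {v : Fin d → ℤ} (h : phi d v = 0) : v = 0 := by
  have h1 : ((∑ j, (v j : ℝ) * xi ^ ((j : ℕ) + 1) : ℝ) : K) = 0 := by
    rw [← h]
    change _ = ∑ j, v j • ((xi ^ ((j : ℕ) + 1) : ℝ) : K)
    rw [← QuotientAddGroup.mk'_apply, map_sum]
    refine Finset.sum_congr rfl fun j _ => ?_
    rw [← zsmul_eq_mul, map_zsmul]
    rfl
  obtain ⟨n, hn⟩ := (AddCircle.coe_eq_zero_iff (1 : ℝ)).1 h1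
  let p : ℤ[X] := ∑ j : Fin d, C (v j) * X ^ ((j : ℕ) + 1) - C n
  have hp : aeval xi p = 0 := by
    simp only [p, map_sub, map_sum, map_mul, map_pow, aeval_X, eq_intCast, map_intCast]
    rw [← hn]
    simp
  have hp0 : p = 0 := by
    by_contra hc
    exact xi_trans ⟨p, hc, hp⟩
  funext j
  have h2 := congrArg (fun q : ℤ[X] => q.coeff ((j : ℕ) + 1)) hp0
  simp only [p, coeff_sub, finsetSum_coeff, coeff_C_mul, coeff_X_pow, coeff_C, coeff_zero] at h2
  rw [Finset.sum_eq_single j] at h2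
  · simpa using h2
  · intro i _ hij
    rw [if_neg fun e => hij (Fin.ext (by omega)), mul_zero]
  · simp

theorem dense_of_inj {d : ℕ} {g : Fin d → ℤ} (hg : g ≠ 0) (z : K) :
    DenseRange fun t : ℤ => z + t • phi d g := by
  have h1 : DenseRange (fun t : ℤ => t • phi d g : ℤ → K) := by
    rw [AddCircle.denseRange_zsmul_iff, addOrderOf_eq_zero_iff']
    intro n hn h0
    rw [← map_nsmul] at h0
    have h2 := phi_inj d h0
    refine hg (funext fun j => ?_)
    have h3 := congrFun h2 j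
    simp only [Pi.smul_apply, Pi.zero_apply, nsmul_eq_mul, mul_eq_zero, Nat.cast_eq_zero] at h3 ⊢
    omega
  exact (Homeomorph.addLeft z).surjective.denseRange.comp h1 (Homeomorph.addLeft z).continuous

theorem exists_return {d : ℕ} {g : Fin d → ℤ} (hg : g ≠ 0) {J : Set K} (hJ : IsOpen J)
    (hne : J.Nonempty) : ∃ N : ℕ, ∀ z : K, ∃ t : ℤ, |t| ≤ N ∧ z + t • phi d g ∈ J := by
  have hcov : (Set.univ : Set K) ⊆ ⋃ t : ℤ, (fun z => z + t • phi d g) ⁻¹' J := by
    intro z _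
    obtain ⟨t, ht⟩ := (dense_of_inj hg z).exists_mem_open hJ hne
    exact Set.mem_iUnion.2 ⟨t, ht⟩
  obtain ⟨s, hs⟩ := isCompact_univ.elim_finite_subcover _
    (fun t : ℤ => hJ.preimage (continuous_id.add continuous_const)) hcov
  refine ⟨s.sup Int.natAbs, fun z => ?_⟩
  have hz := hs (Set.mem_univ z)
  simp only [Set.mem_iUnion] at hz
  obtain ⟨t, ht, hz⟩ := hz
  refine ⟨t, ?_, hz⟩
  rw [Int.abs_eq_natAbs]
  exact_mod_cast Finset.le_sup (f := Int.natAbs) ht

theorem far {r : ℝ} (h1 : 1 / 4 < r) (h2 : r < 3 / 4) : 1 / 4 < ‖((r : ℝ) : K)‖ := by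
  rw [UnitAddCircle.norm_eq]
  rcases le_or_gt (round r) 0 with h | h
  · have : ((round r : ℤ) : ℝ) ≤ 0 := by exact_mod_cast h
    rw [abs_of_pos (by linarith)]
    linarith
  · have : (1 : ℝ) ≤ (round r : ℤ) := by exact_mod_cast h
    rw [abs_of_neg (by linarith)]
    linarith

theorem near {r : ℝ} (h1 : 0 ≤ r) (h2 : r < 1 / 4) : ‖((r : ℝ) : K)‖ < 1 / 4 := by
  rw [UnitAddCircle.norm_eq]
  refine lt_of_le_of_lt (round_le r 0) ?_
  simp only [Int.cast_zero, sub_zero]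
  rw [abs_of_nonneg h1]
  exact h2

theorem exists_sep {τ : K} (h : τ ≠ 0) : ∃ w : K, ‖w‖ < 1 / 4 ∧ 1 / 4 < ‖w + τ‖ := by
  -- a representative in `(0, 1)`
  have key : ∀ x : ℝ, 0 < x → x ≤ 1 / 2 → ∃ w : K, ‖w‖ < 1 / 4 ∧ 1 / 4 < ‖w + ((x : ℝ) : K)‖ := by
    intro x h0 h1
    refine ⟨((1 / 4 - min (x / 2) (1 / 8) : ℝ) : K), near ?_ ?_, ?_⟩
    · have := min_le_right (x / 2) (1 / 8 : ℝ)
      linarith
    · have : 0 < min (x / 2) (1 / 8 : ℝ) := lt_min (by linarith) (by norm_num)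
      linarith
    · rw [← AddCircle.coe_add]
      have h2 : 0 < min (x / 2) (1 / 8 : ℝ) := lt_min (by linarith) (by norm_num)
      have h3 := min_le_left (x / 2) (1 / 8 : ℝ)
      exact far (by linarith) (by linarith)
  obtain ⟨x, rfl⟩ := QuotientAddGroup.mk_surjective τ
  -- shift `x` by an integer
  have hx : ((x - round x : ℝ) : K) = ((x : ℝ) : K) := by
    rw [AddCircle.coe_sub, sub_eq_self]
    rw [AddCircle.coe_eq_zero_iff]
    exact ⟨round x, by simp⟩
  have habs := abs_sub_round x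
  change ∃ w : K, ‖w‖ < 1 / 4 ∧ 1 / 4 < ‖w + ((x : ℝ) : K)‖
  rw [← hx]
  have hne : x - round x ≠ 0 := by
    intro e
    apply h
    change ((x : ℝ) : K) = 0
    rw [← hx, e]
    rfl
  rcases lt_or_gt_of_ne hne with h1 | h1
  · obtain ⟨w, hw1, hw2⟩ := key (-(x - round x)) (by linarith) (by
      rw [abs_of_neg h1] at habs
      exact habs)
    refine ⟨-w, by rwa [norm_neg], ?_⟩
    rw [← norm_neg, neg_add, neg_neg]
    rwa [AddCircle.coe_neg] at hw2
  · exact key _ h1 (by rwa [abs_of_pos h1] at habs)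

end NIC
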