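import Pool.Agent.Helper24.NI.NoConf
import Pool.Agent.Helper24.NI.Circle
import Pool.Agent.Helper24.NI.Dec

/-!
# Project NI: no Borel solution

A Borel solution is pulled back to the circle along a coding of a free minimal rotation; a point which is
generic for the finitely many Borel sets gives a recurrent configuration.
-/

set_option autoImplicit false

namespace NI

open EB NIC MeasureTheory

/-- the coding of the rotation -/
noncomputable def code {d : ℕ} (z : K) : Om d := fun h =>
  open Classical in if ‖z + phi d h‖ < 1 / 4 then true else false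

theorem code_add {d : ℕ} (z : K) (g : Gd d) : code (z + phi d g) = sh g (code z : Om d) := by
  funext h
  change (if ‖z + phi d g + phi d h‖ < 1 / 4 then true else false) =
    if ‖z + phi d (h + g)‖ < 1 / 4 then true else false
  rw [map_add, add_comm (phi d h), add_assoc]

theorem code_meas {d : ℕ} : Measurable (code : K → Om d) := by
  classical
  refine measurable_pi_iff.2 fun h => ?_
  refine Measurable.ite ?_ measurable_const measurable_const
  exact (isOpen_lt (continuous_norm.comp (continuous_id.add continuous_const))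
    continuous_const).measurableSet

theorem code_mem {d : ℕ} (hd : 0 < d) (z : K) : (code z : Om d) ∈ FP d := by
  intro g hg
  by_contra hne
  have hτ : phi d g ≠ 0 := fun e => hne (phi_inj d e)
  obtain ⟨w, hw⟩ := exists_sep hτ
  have hun : (un ⟨0, hd⟩ : Gd d) ≠ 0 := by
    intro e
    have := congrFun e ⟨0, hd⟩
    simp [un] at this
  have hopen : IsOpen {w : K | ‖w‖ < 1 / 4 ∧ 1 / 4 < ‖w + phi d g‖} :=
    (isOpen_lt continuous_norm continuous_const).inter
      (isOpen_lt continuous_const (continuous_norm.comp (continuous_id.add continuous_const)))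
  obtain ⟨t, ht⟩ := (dense_of_inj hun z).exists_mem_open hopen ⟨w, hw⟩
  have h1 := congrFun hg (t • un ⟨0, hd⟩)
  simp only [sh, code, map_add, map_zsmul] at h1
  rw [if_pos ht.1, if_neg] at h1
  · exact absurd h1 (by decide)
  · rw [← add_assoc]
    exact not_lt.2 ht.2.le

theorem no_borel {d : ℕ} (hd : 2 ≤ d) : ¬ BorelSol (fshift d) lcl := by
  rintro ⟨f, hf, hsol⟩
  rw [sol_iff_univ] at hsol
  have hd0 : 0 < d := by omega
  let x : K → FP d := fun z => ⟨code z, code_mem hd0 z⟩
  have hxm : Measurable x := code_meas.subtype_mk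
  have hxT : ∀ z g, (fshift d).T g (x z) = x (z + phi d g) := fun z g =>
    Subtype.ext (code_add z g).symm
  -- open sets
  have hU : ∀ s, ∃ U : Set K, IsOpen U ∧ ∀ᶠ z in residual K, f (x z) = s ↔ z ∈ U := by
    intro s
    obtain ⟨U, hU, hs⟩ := (hxm (hf s)).residualEq_isOpen
    refine ⟨U, hU, ?_⟩
    filter_upwards [hs] with z hz
    exact iff_of_eq hz
  choose U hUo hUs using hU
  -- a generic point
  have hgen : ∀ᶠ z in residual K, ∀ g : Gd d, ∀ s, f (x (z + phi d g)) = s ↔ z + phi d g ∈ U s := by
    rw [eventually_countable_forall]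
    intro g
    rw [Filter.eventually_all]
    intro s
    have h1 := (Homeomorph.addRight (phi d g)).residual_map_eq
    have h2 := hUs s
    rw [← h1] at h2
    exact h2
  obtain ⟨z, hz⟩ := (dense_of_mem_residual hgen).nonempty
  let y : Gd d → Lab := fun g => f (x (z + phi d g))
  have hy : ∀ g s, y g = s ↔ z + phi d g ∈ U s := fun g s => hz g s
  have hconf : Conf y := by
    refine conf_of_allowed y fun g => ?_
    have h1 := hsol (x (z + phi d g))
    have h2 : (fun b : ball (grid d) lcl.r 0 => f ((fshift d).T b.1 (x (z + phi d g)))) =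
        fun b => y (b.1 + g) := by
      funext b
      rw [hxT]
      change _ = f (x (z + phi d (b.1 + g)))
      rw [map_add, add_comm (phi d b.1), add_assoc]
    rw [h2] at h1
    exact h1
  let i0 : Fin d := ⟨0, by omega⟩
  let i1 : Fin d := ⟨1, by omega⟩
  have h01 : i0 ≠ i1 := by
    intro e
    have := congrArg Fin.val e
    simp [i0, i1] at this
  have hun : ∀ i : Fin d, (un i : Gd d) ≠ 0 := by
    intro i e
    have := congrFun e i
    simp [un] at this
  have hJ : (U (y 0)).Nonempty := ⟨z + phi d 0, (hy 0 _).1 rfl⟩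
  obtain ⟨N0, hN0⟩ := exists_return (hun i0) (hUo (y 0)) hJ
  obtain ⟨N1, hN1⟩ := exists_return (hun i1) (hUo (y 0)) hJ
  have hpush : ∀ (g e : Gd d) (t : ℤ), z + phi d (g + t • e) = z + phi d g + t • phi d e := by
    intro g e t
    rw [map_add, map_zsmul, add_assoc]
  refine no_conf' h01 y hconf (s := (y 0).1) (N := max N0 N1) (fun g => ⟨?_, ?_⟩) fun g R => ?_
  · obtain ⟨t, ht, h1⟩ := hN0 (z + phi d g)
    rw [← hpush] at h1
    exact ⟨t, ht.trans (by exact_mod_cast le_max_left _ _), by rw [(hy _ _).2 h1]⟩
  · obtain ⟨t, ht, h1⟩ := hN1 (z + phi d g)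
    rw [← hpush] at h1
    exact ⟨t, ht.trans (by exact_mod_cast le_max_right _ _), by rw [(hy _ _).2 h1]⟩
  · -- an odd return
    let W : Set K := ⋂ i ∈ Finset.range (R + 1),
      (fun w => w + (i : ℤ) • phi d (un i0)) ⁻¹' U (y (g + (i : ℤ) • un i0))
    have hW : IsOpen W := isOpen_biInter_finset fun i _ =>
      (hUo _).preimage (continuous_id.add continuous_const)
    have hmem : z + phi d g ∈ W := by
      refine Set.mem_iInter₂.2 fun i _ => ?_
      change z + phi d g + (i : ℤ) • phi d (un i0) ∈ U (y (g + (i : ℤ) • un i0))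
      rw [← hpush]
      exact (hy _ _).1 rfl
    have h2 : (2 : ℤ) • (un i0 : Gd d) ≠ 0 := by
      intro e
      have := congrFun e i0
      simp [un] at this
    obtain ⟨t, ht⟩ := (dense_of_inj h2 (z + phi d (g + un i0))).exists_mem_open hW ⟨_, hmem⟩
    refine ⟨2 * t + 1, ⟨t, rfl⟩, fun i hi => ?_⟩
    have h3 := Set.mem_iInter₂.1 ht i (Finset.mem_range.2 (by omega))
    change z + phi d (g + un i0) + t • phi d ((2 : ℤ) • un i0) + (i : ℤ) • phi d (un i0) ∈
      U (y (g + (i : ℤ) • un i0)) at h3
    rw [← hpush, ← hpush] at h3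
    rw [(hy _ _).2 h3 |>.symm]
    congr 1
    rw [add_smul, add_smul, one_smul, mul_comm, mul_smul]
    abel

end NI
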