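import Pool.Agent.Helper24.NI.Row

/-!
# Project NI: no recurrent configuration on the plane
-/

set_option autoImplicit false

namespace NIC

/-- the rules on the plane -/
structure PConf (l : ℤ → ℤ → ZMod 3) (b : ℤ → ℤ → Bool) : Prop where
  face : ∀ x y, Face (l x y) (l (x + 1) y) (l (x + 1) (y + 1)) (l x (y + 1))
  px : ∀ x y, l (x + 1) y = l x y → b (x + 1) y ≠ b x y
  py : ∀ x y, l x (y + 1) = l x y → b x (y + 1) ≠ b x y

theorem PConf.face' {l : ℤ → ℤ → ZMod 3} {b : ℤ → ℤ → Bool} (h : PConf l b) (x y s t : ℤ)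
    (hs : Sg s) (ht : Sg t) : Face (l x y) (l (x + s) y) (l (x + s) (y + t)) (l x (y + t)) := by
  rcases hs with hs | hs <;> rcases ht with ht | ht <;> subst hs <;> subst ht
  · exact h.face x y
  · have := h.face x (y + -1)
    rw [show y + -1 + 1 = y by ring] at this
    exact this.rot.rot.rot.flip
  · have := h.face (x + -1) y
    rw [show x + -1 + 1 = x by ring] at this
    exact this.rot.flip
  · have := h.face (x + -1) (y + -1)
    rw [show x + -1 + 1 = x by ring, show y + -1 + 1 = y by ring] at this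
    exact this.rot.rot

/-- the parity of a position -/
def par (k : ℤ) : Bool := decide (k % 2 = 0)

theorem par_succ (k : ℤ) : par (k + 1) = !par k := by
  unfold par
  rcases Int.emod_two_eq_zero_or_one k with h | h
  · have h2 : (k + 1) % 2 = 1 := by omega
    simp [h, h2]
  · have h2 : (k + 1) % 2 = 0 := by omega
    simp [h, h2]

theorem exists_Hc {l : ℤ → ℤ → ZMod 3} {b : ℤ → ℤ → Bool} (h : PConf l b) {a : ZMod 3} {N : ℕ}
    (h1 : ∀ x y, (∃ t : ℤ, |t| ≤ N ∧ l (x + t) y = a) ∧ ∃ t : ℤ, |t| ≤ N ∧ l x (y + t) = a) :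
    ∃ H : ℤ → ℤ → ℤ, Hc H a N ∧ (∀ x y, ((H x y : ℤ) : ZMod 3) = l x y) ∧
      ∀ x y, H (x + 1) y = H x y + dl (l (x + 1) y - l x y) := by
  obtain ⟨H, hl, hx, hy⟩ := exists_lift l h.face
  have hx' : ∀ x y s, Sg s → H (x + s) y = H x y + dl (l (x + s) y - l x y) := by
    rintro x y s (hs | hs) <;> subst hs
    · exact hx x y
    · have := hx (x + -1) y
      rw [show x + -1 + 1 = x by ring] at this
      rw [this, ← neg_sub (l x y), dl_neg]
      ring
  have hy' : ∀ x y s, Sg s → H x (y + s) = H x y + dl (l x (y + s) - l x y) := by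
    rintro x y s (hs | hs) <;> subst hs
    · exact hy x y
    · have := hy x (y + -1)
      rw [show y + -1 + 1 = y by ring] at this
      rw [this, ← neg_sub (l x y), dl_neg]
      ring
  have hd : ∀ x y s t, Sg s → Sg t →
      H (x + s) (y + t) = H x y + (dl (l (x + s) y - l x y) + dl (l (x + s) (y + t) - l (x + s) y)) := by
    intro x y s t hs ht
    rw [hy' (x + s) y t ht, hx' x y s hs]
    ring
  refine ⟨H, ⟨?_, ?_, ?_, ?_, ?_⟩, hl, hx⟩
  · intro x y s hs
    rw [hx' x y s hs]
    have := dl_le (l (x + s) y - l x y)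
    omega
  · intro x y s hs
    rw [hy' x y s hs]
    have := dl_le (l x (y + s) - l x y)
    omega
  · intro m
    constructor
    · intro x y s t hs ht a1 a2 a3
      have hF := (h.face' x y s t hs ht).three
      rw [hx' x y s hs] at a2
      rw [hy' x y t ht] at a3
      rw [hd x y s t hs ht]
      omega
    · intro x y s t hs ht a1 a2
      have hF := (h.face' x y s t hs ht).diag
      rw [hd x y s t hs ht] at a2
      rw [hx' x y s hs]
      omega
  · intro x y
    obtain ⟨t, ht, e⟩ := (h1 x y).1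
    exact ⟨t, ht, by rw [hl, e]⟩
  · intro x y
    obtain ⟨t, ht, e⟩ := (h1 x y).2
    exact ⟨t, ht, by rw [hl, e]⟩

/-- The rules have no solution on the plane in which a label recurs with bounded gaps in every row and
every column and in which every finite piece of a row recurs at an odd distance. -/
theorem no_plane {l : ℤ → ℤ → ZMod 3} {b : ℤ → ℤ → Bool} (h : PConf l b) {a : ZMod 3} {N : ℕ}
    (h1 : ∀ x y, (∃ t : ℤ, |t| ≤ N ∧ l (x + t) y = a) ∧ ∃ t : ℤ, |t| ≤ N ∧ l x (y + t) = a)
    (h2 : ∀ (x y : ℤ) (R : ℕ), ∃ n : ℤ, Odd n ∧ ∀ i : ℕ, i ≤ R →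
      l (x + n + i) y = l (x + i) y ∧ b (x + n + i) y = b (x + i) y) : False := by
  obtain ⟨H, hH, hl, hx⟩ := exists_Hc h h1
  -- the maximum
  obtain ⟨M, ⟨u, v, huv⟩, hM⟩ : ∃ M : ℤ, (∃ u v, H u v = M) ∧ ∀ u v, H u v ≤ M := by
    obtain ⟨M, hM1, hM2⟩ := Int.exists_greatest_of_bdd (P := fun k => ∃ u v, H u v = k)
      ⟨H 0 0 + N, by rintro z ⟨u, v, rfl⟩; exact hH.bound 0 0 u v⟩ ⟨H 0 0, 0, 0, rfl⟩
    exact ⟨M, hM1, fun u v => hM2 _ ⟨u, v, rfl⟩⟩
  have hex : ∃ u v, H u v = M := ⟨u, v, huv⟩
  have hV : ∃ u v, ¬ H u v ≤ M - 1 := ⟨u, v, by omega⟩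
  -- the phase
  have leq : ∀ {x y x' y' : ℤ}, H x y = H x' y' → l x y = l x' y' := fun {x y x' y'} e => by
    rw [← hl, ← hl, e]
  have hrow := fun n => hH.row hM hex (c := fun x y => b x y ^^ par (x + y))
    (fun x y e => by
      have h3 := h.px x y (leq e)
      have h4 : par (x + 1 + y) = !par (x + y) := by
        rw [← par_succ]
        congr 1
        ring
      simp only [h4]
      revert h3
      cases b (x + 1) y <;> cases b x y <;> cases par (x + y) <;> simp)
    (fun x y e => by
      have h3 := h.py x y (leq e)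
      have h4 : par (x + (y + 1)) = !par (x + y) := by
        rw [← par_succ]
        congr 1
        ring
      simp only [h4]
      revert h3
      cases b x (y + 1) <;> cases b x y <;> cases par (x + y) <;> simp) n
  obtain ⟨n, hn, hrec⟩ := h2 u v (2 * N + 1)
  -- the differences agree
  have hdiff : ∀ i : ℕ, i ≤ 2 * N + 1 → H (u + n + i) v - H (u + n) v = H (u + i) v - H u v := by
    intro i
    induction i with
    | zero =>
      intro _
      simp
    | succ i ih =>
      intro hi
      have e1 := hx (u + n + i) v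
      have e2 := hx (u + i) v
      have a1 := (hrec (i + 1) hi).1
      have a2 := (hrec i (by omega)).1
      rw [show u + n + ((i + 1 : ℕ) : ℤ) = u + n + i + 1 by push_cast; ring,
        show u + ((i + 1 : ℕ) : ℤ) = u + i + 1 by push_cast; ring] at a1 ⊢
      rw [a1, a2] at e1
      have := ih (by omega)
      omega
  have hn' : H (u + n) v = M := by
    by_contra hc
    have hle : H (u + n) v ≤ M - 1 := by
      have := hM (u + n) v
      omega
    obtain ⟨p, hp, -, hpn⟩ := hH.small hV hle (s := 1) (Or.inl rfl)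
    have h3 := hdiff (p + 1) (by omega)
    rw [show u + n + 1 * ((p : ℤ) + 1) = u + n + ((p + 1 : ℕ) : ℤ) by push_cast; ring] at hpn
    have h4 := hM (u + ((p + 1 : ℕ) : ℤ)) v
    omega
  -- the phases are equal
  have hph : (b (u + n) v ^^ par (u + n + v)) = (b u v ^^ par (u + v)) := by
    rcases le_total 0 n with h0 | h0
    · have e : u + ((n.toNat : ℕ) : ℤ) = u + n := by
        rw [Int.toNat_of_nonneg h0]
      have := hrow n.toNat u v huv (by rw [e]; exact hn')
      rw [e] at this
      exact this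
    · have e : u + n + (((-n).toNat : ℕ) : ℤ) = u := by
        rw [Int.toNat_of_nonneg (by omega)]
        ring
      have := hrow (-n).toNat (u + n) v hn' (by rw [e]; exact huv)
      rw [e] at this
      exact this.symm
  have hb : b (u + n) v = b u v := by simpa using (hrec 0 (Nat.zero_le _)).2
  rw [hb] at hph
  have h5 : par (u + n + v) = par (u + v) := by
    revert hph
    cases b u v <;> simp
  unfold par at h5
  rw [decide_eq_decide] at h5
  obtain ⟨k, hk⟩ := hn
  omega

end NIC
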