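import Pool.Agent.Helper24.NI.Bound

/-!
# Project NI: the phase is constant along the rows of the top level
-/

set_option autoImplicit false

namespace NIC

variable {H : ℤ → ℤ → ℤ} {a : ZMod 3} {N : ℕ}

theorem Hc.row (h : Hc H a N) {M : ℤ} (hM : ∀ u v, H u v ≤ M) (hex : ∃ u v, H u v = M)
    {c : ℤ → ℤ → Bool} (hcx : ∀ x y, H (x + 1) y = H x y → c (x + 1) y = c x y)
    (hcy : ∀ x y, H x (y + 1) = H x y → c x (y + 1) = c x y) (n : ℕ) :
    ∀ x y, H x y = M → H (x + n) y = M → c (x + n) y = c x y := by
  have hV : ∃ u v, ¬ H u v ≤ M - 1 := by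
    obtain ⟨u, v, huv⟩ := hex
    exact ⟨u, v, by omega⟩
  have hsg : Sg 1 := Or.inl rfl
  have top : ∀ {u v}, ¬ H u v ≤ M - 1 → H u v = M := fun {u v} hn => by
    have := hM u v
    omega
  have sx : ∀ {x y}, H x y = M → H (x + 1) y = M → c (x + 1) y = c x y := fun h1 h2 =>
    hcx _ _ (h2.trans h1.symm)
  have sy : ∀ {x y}, H x y = M → H x (y + 1) = M → c x (y + 1) = c x y := fun h1 h2 =>
    hcy _ _ (h2.trans h1.symm)
  induction n using Nat.strong_induction_on with
  | _ n ih =>
    intro x y hx hn
    rcases Nat.eq_zero_or_pos n with h0 | hpos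
    · subst h0
      simp
    by_cases h1 : H (x + 1) y = M
    · -- one step
      have e : x + 1 + ((n - 1 : ℕ) : ℤ) = x + n := by
        push_cast [hpos]
        ring
      have := ih (n - 1) (by omega) (x + 1) y h1 (by rw [e]; exact hn)
      rw [e] at this
      rw [this, sx hx h1]
    · have hA1 : H (x + 1) y ≤ M - 1 := by
        have := hM (x + 1) y
        omega
      -- the box of `x + 1`
      obtain ⟨p, -, hp, hpn⟩ := h.small hV hA1 hsg
      obtain ⟨q, -, hq, hqn⟩ := h.swap.small (x := y) (y := x + 1)
        (by obtain ⟨u, v, huv⟩ := hV; exact ⟨v, u, huv⟩) hA1 hsg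
      have hsq := h.sq (M - 1)
      simp only [one_mul] at hp hpn hq hqn
      have hp' : ∀ i : ℕ, i ≤ p → H (x + 1 + 1 * (i : ℤ)) y ≤ M - 1 := by simpa using hp
      have hq' : ∀ j : ℕ, j ≤ q → H (x + 1) (y + 1 * (j : ℤ)) ≤ M - 1 := by simpa using hq
      -- left column
      have hl : ∀ j : ℕ, j ≤ q → H x (y + j) = M := by
        intro j hj
        have h2 := hsq.wall (x := x + 1) (y := y) (s := -1) (t := 1) (p := 0) (q := q) (Or.inr rfl) hsg
          (fun i hi => by
            have : i = 0 := by omega
            subst this
            simpa using hA1) hq' (by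
              have : x + 1 + -1 * (((0 : ℕ) : ℤ) + 1) = x := by
                push_cast
                ring
              rw [this]
              omega) j hj
        have e : x + 1 + -1 * (((0 : ℕ) : ℤ) + 1) = x := by
          push_cast
          ring
        rw [e, one_mul] at h2
        exact top h2
      -- upper row
      have hu : ∀ i : ℕ, i ≤ p → H (x + 1 + i) (y + (q + 1)) = M := by
        intro i hi
        have h2 := hsq.wall' hsg hsg hp' hq' (by simpa using hqn) i hi
        rw [one_mul, one_mul] at h2
        exact top h2
      -- right column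
      have hr : ∀ j : ℕ, j ≤ q → H (x + 1 + (p + 1)) (y + j) = M := by
        intro j hj
        have h2 := hsq.wall hsg hsg hp' hq' (by simpa using hpn) j hj
        rw [one_mul, one_mul] at h2
        exact top h2
      -- the corners
      have hbox := hsq.box hsg hsg hp' hq' q le_rfl
      have hcl : H x (y + (q + 1)) = M := by
        refine top fun hc => ?_
        have h2 := hbox 0 (Nat.zero_le _)
        simp only [Nat.cast_zero, mul_zero, add_zero, one_mul] at h2
        have h3 := hsq.diag (x + 1) (y + q) (-1) 1 (Or.inr rfl) hsg h2 (by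
          rw [show x + 1 + -1 = x by ring, show y + (q : ℤ) + 1 = y + (q + 1) by ring]
          exact hc)
        rw [show x + 1 + -1 = x by ring] at h3
        have := hl q le_rfl
        omega
      have hcr : H (x + 1 + (p + 1)) (y + (q + 1)) = M := by
        refine top fun hc => ?_
        have h2 := hbox p le_rfl
        simp only [one_mul] at h2
        have h3 := hsq.diag (x + 1 + p) (y + q) 1 1 hsg hsg h2 (by
          rw [show x + 1 + (p : ℤ) + 1 = x + 1 + (p + 1) by ring,
            show y + (q : ℤ) + 1 = y + (q + 1) by ring]
          exact hc)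
        rw [show x + 1 + (p : ℤ) + 1 = x + 1 + (p + 1) by ring] at h3
        have := hr q le_rfl
        omega
      -- the phase along the path
      have c1 : ∀ j : ℕ, j ≤ q → c x (y + j) = c x y := by
        intro j
        induction j with
        | zero =>
          intro _
          simp
        | succ j ihj =>
          intro hj
          have h2 := hl (j + 1) hj
          have h3 := hl j (by omega)
          rw [show y + ((j + 1 : ℕ) : ℤ) = y + j + 1 by push_cast; ring] at h2 ⊢
          rw [sy h3 h2, ihj (by omega)]
      have c2 : c x (y + (q + 1)) = c x y := by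
        have h2 := hcl
        have h3 := hl q le_rfl
        rw [show y + ((q : ℤ) + 1) = y + q + 1 by ring] at h2 ⊢
        rw [sy h3 h2, c1 q le_rfl]
      have c3 : ∀ i : ℕ, i ≤ p → c (x + 1 + i) (y + (q + 1)) = c x y := by
        intro i
        induction i with
        | zero =>
          intro _
          have h2 := hu 0 (Nat.zero_le _)
          simp only [Nat.cast_zero, add_zero] at h2 ⊢
          rw [sx hcl h2, c2]
        | succ i ihi =>
          intro hi
          have h2 := hu (i + 1) hi
          have h3 := hu i (by omega)
          rw [show x + 1 + ((i + 1 : ℕ) : ℤ) = x + 1 + i + 1 by push_cast; ring] at h2 ⊢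
          rw [sx h3 h2, ihi (by omega)]
      have c4 : c (x + 1 + (p + 1)) (y + (q + 1)) = c x y := by
        have h2 := hcr
        have h3 := hu p le_rfl
        rw [show x + 1 + ((p : ℤ) + 1) = x + 1 + p + 1 by ring] at h2 ⊢
        rw [sx h3 h2, c3 p le_rfl]
      have c5 : ∀ j : ℕ, j ≤ q → c (x + 1 + (p + 1)) (y + j) = c (x + 1 + (p + 1)) y := by
        intro j
        induction j with
        | zero =>
          intro _
          simp
        | succ j ihj =>
          intro hj
          have h2 := hr (j + 1) hj
          have h3 := hr j (by omega)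
          rw [show y + ((j + 1 : ℕ) : ℤ) = y + j + 1 by push_cast; ring] at h2 ⊢
          rw [sy h3 h2, ihj (by omega)]
      have c6 : c (x + 1 + (p + 1)) (y + (q + 1)) = c (x + 1 + (p + 1)) y := by
        have h2 := hcr
        have h3 := hr q le_rfl
        rw [show y + ((q : ℤ) + 1) = y + q + 1 by ring] at h2 ⊢
        rw [sy h3 h2, c5 q le_rfl]
      have c7 : c (x + 1 + (p + 1)) y = c x y := c6.symm.trans c4
      have hr0 : H (x + 1 + (p + 1)) y = M := by simpa using hr 0 (Nat.zero_le _)
      -- `n` is beyond the box
      have hnp : p + 2 ≤ n := by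
        by_contra hc
        have h2 := hp (n - 1) (by omega)
        have e : x + 1 + ((n - 1 : ℕ) : ℤ) = x + n := by
          push_cast [hpos]
          ring
        rw [e] at h2
        omega
      have e : x + 1 + ((p : ℤ) + 1) + ((n - (p + 2) : ℕ) : ℤ) = x + n := by
        push_cast [hnp]
        ring
      have h3 := ih (n - (p + 2)) (by omega) (x + 1 + (p + 1)) y hr0 (by rw [e]; exact hn)
      rw [e] at h3
      rw [h3, c7]

end NIC
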